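import Pool.Agent.Helper62.PM.St

/-!
Project PM, module G: positive functionals on a space of continuous functions which contains the
constant one are integrals (M. Riesz extension and Riesz-Markov-Kakutani).
-/

set_option autoImplicit false

open MeasureTheory Metric Set Filter Topology
open scoped RealInnerProductSpace ContDiff

namespace Pool.Agent.Helper36.PM

open Pool.Agent.Helper62.PM
open Pool.Agent.Helper62.Mink

theorem hG : StG := by
  intro X _ _ _ _ _ V _ _ r Λ u hu hpos
  have hker : LinearMap.ker r ≤ LinearMap.ker Λ := by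
    intro φ h
    rw [LinearMap.mem_ker] at h ⊢
    apply le_antisymm
    · have h1 := hpos (-φ) (fun x => by rw [map_neg, h]; simp)
      rw [map_neg] at h1
      linarith
    · exact hpos φ (fun x => by rw [h]; simp)
  let f0 : LinearMap.range r →ₗ[ℝ] ℝ :=
    ((LinearMap.ker r).liftQ Λ hker).comp (r.quotKerEquivRange.symm : LinearMap.range r →ₗ[ℝ] V ⧸ LinearMap.ker r)
  have hf0 : ∀ φ (h : r φ ∈ LinearMap.range r), f0 ⟨r φ, h⟩ = Λ φ := by
    intro φ h
    show ((LinearMap.ker r).liftQ Λ hker) (r.quotKerEquivRange.symm ⟨r φ, h⟩) = Λ φ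
    rw [LinearMap.quotKerEquivRange_symm_apply_image]
    simp
  let f : C(X, ℝ) →ₗ.[ℝ] ℝ := ⟨LinearMap.range r, f0⟩
  obtain ⟨g, hg1, hg2⟩ := riesz_extension (PointedCone.positive ℝ C(X, ℝ)) f (by
    rintro ⟨y, φ, rfl⟩ hy
    have h1 : (0 : C(X, ℝ)) ≤ r φ := hy
    exact (hpos φ (fun x => h1 x)).trans_eq (hf0 φ (LinearMap.mem_range_self r φ)).symm) (by
    intro y
    refine ⟨⟨r (‖y‖ • u), LinearMap.mem_range_self r _⟩, ?_⟩
    rw [PointedCone.mem_positive]
    intro x
    show (0 : ℝ) ≤ (r (‖y‖ • u) + y) x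
    rw [map_smul, ContinuousMap.add_apply, ContinuousMap.smul_apply, hu, smul_eq_mul, mul_one]
    have h2 := ContinuousMap.norm_coe_le_norm y x
    have h3 := neg_abs_le (y x)
    rw [Real.norm_eq_abs] at h2
    linarith)
  let G : CompactlySupportedContinuousMap X ℝ →ₗ[ℝ] ℝ :=
    { toFun := fun h => g (h : C(X, ℝ))
      map_add' := fun a b => g.map_add (a : C(X, ℝ)) (b : C(X, ℝ))
      map_smul' := fun c a => g.map_smul c (a : C(X, ℝ)) }
  let G' := PositiveLinearMap.mk₀ G (fun h hh => hg2 _ (by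
    rw [PointedCone.mem_positive]
    exact hh))
  refine ⟨RealRMK.rieszMeasure G', inferInstance, fun φ => ?_⟩
  have h1 := RealRMK.integral_rieszMeasure G' ⟨r φ, HasCompactSupport.of_compactSpace _⟩
  have h2 : g (r φ) = Λ φ := by
    rw [← hf0 φ (LinearMap.mem_range_self r φ)]
    exact hg1 ⟨r φ, LinearMap.mem_range_self r φ⟩
  rw [← h2]
  exact h1.symm

end Pool.Agent.Helper36.PM
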