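import Pool.Agent.Helper62.PM.St7

/-!
# Project PM, part 7, module LAW: densities with an expansion at `0`
-/

set_option autoImplicit false

open MeasureTheory Metric Set Filter Topology Polynomial
open scoped RealInnerProductSpace ContDiff

namespace Pool.Agent.Helper36.PM6

open Pool.Agent.Helper62.PM6
open Pool.Agent.Helper62.Mink

private lemma punct {p : ℝ → Prop} (h : ∀ᶠ t in 𝓝[≠] (0 : ℝ), p t) :
    ∃ δ : ℝ, 0 < δ ∧ δ ≤ 1 ∧ ∀ t : ℝ, t ≠ 0 → |t| < δ → p t := by
  rw [eventually_nhdsWithin_iff, Metric.eventually_nhds_iff] at h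
  obtain ⟨ε, hε, h⟩ := h
  refine ⟨min ε 1, lt_min hε one_pos, min_le_right _ _, fun t ht htδ => ?_⟩
  exact h (by rw [Real.dist_eq, sub_zero]; exact htδ.trans_le (min_le_left _ _)) ht

private lemma lim0 {f : ℝ → ℝ} (b : ℝ) (hf : ContinuousOn f (Icc (-1) 1)) :
    Tendsto (fun t : ℝ => f t - b * t) (𝓝[≠] 0) (𝓝 (f 0)) := by
  have h1 : ContinuousAt f 0 := hf.continuousAt (Icc_mem_nhds (by norm_num) (by norm_num))
  have h2 : Tendsto (fun t : ℝ => f t - b * t) (𝓝 0) (𝓝 (f 0 - b * 0)) :=
    h1.tendsto.sub ((continuous_const.mul continuous_id).tendsto 0)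
  rw [mul_zero, sub_zero] at h2
  exact h2.mono_left nhdsWithin_le_nhds

/-- MODULE LAW -/
theorem hLAW : StLAW := by
  intro f b c k hf hk hc hT
  have hL := lim0 b hf
  have hmul : ∀ t : ℝ, t ≠ 0 → f t - b * t = t ^ k * ((f t - b * t) / t ^ k) := by
    intro t ht
    rw [mul_div_cancel₀ _ (pow_ne_zero k ht)]
  refine ⟨?_, ?_⟩
  · rintro ⟨hev, hc0⟩
    obtain ⟨δ, hδ, hδ1, hq⟩ := punct (hT.eventually (lt_mem_nhds hc0))
    have hpos : ∀ t : ℝ, t ≠ 0 → |t| < δ → 0 < f t - b * t := by
      intro t ht htδ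
      rw [hmul t ht]
      exact mul_pos (hev.pow_pos ht) (hq t ht htδ)
    have hf0 : 0 ≤ f 0 := by
      refine ge_of_tendsto hL ?_
      rw [eventually_nhdsWithin_iff, Metric.eventually_nhds_iff]
      refine ⟨δ, hδ, fun t ht ht0 => ?_⟩
      rw [Real.dist_eq, sub_zero] at ht
      exact (hpos t ht0 ht).le
    refine ⟨Or.inr ⟨δ / 2, ⟨by linarith, by linarith⟩, ?_, ?_⟩,
      Or.inr ⟨δ / 2, ⟨by linarith, by linarith⟩, ?_, ?_⟩⟩
    · rintro t ⟨h0, h1⟩
      rcases h0.eq_or_lt with h | h
      · rw [← h]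
        simpa using hf0
      · exact (hpos t h.ne' (by rw [abs_of_pos h]; linarith)).le
    · exact hpos (δ / 2) (by positivity) (by rw [abs_of_pos (by positivity)]; linarith)
    · rintro t ⟨h0, h1⟩
      rcases h0.eq_or_lt with h | h
      · rw [← h]
        simpa using hf0
      · have := hpos (-t) (neg_ne_zero.2 h.ne')
          (by rw [abs_neg, abs_of_pos h]; linarith)
        show 0 ≤ f (-t) + b * t
        linarith
    · have := hpos (-(δ / 2)) (neg_ne_zero.2 (by positivity))
        (by rw [abs_neg, abs_of_pos (by positivity)]; linarith)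
      show 0 < f (-(δ / 2)) + b * (δ / 2)
      linarith
  · intro hn
    rcases Nat.eq_zero_or_pos k with hk0 | hk0
    · left
      rw [hk0] at hT hn
      have hcn : c < 0 := by
        by_contra h
        exact hn ⟨Even.zero, lt_of_le_of_ne (not_lt.1 h) (Ne.symm hc)⟩
      have h1 : Tendsto (fun t : ℝ => f t - b * t) (𝓝[≠] 0) (𝓝 c) := by
        simpa using hT
      rw [tendsto_nhds_unique hL h1]
      exact hcn
    · right
      have hk2 : 2 ≤ k := by omega
      have hpw : Tendsto (fun t : ℝ => t ^ (k - 1)) (𝓝[≠] 0) (𝓝 0) := by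
        have h1 : Tendsto (fun t : ℝ => t ^ (k - 1)) (𝓝 0) (𝓝 ((0 : ℝ) ^ (k - 1))) :=
          (continuous_pow (k - 1)).tendsto 0
        rw [zero_pow (by omega)] at h1
        exact h1.mono_left nhdsWithin_le_nhds
      have hd : Tendsto (fun t : ℝ => (f t - b * t) / t) (𝓝[≠] 0) (𝓝 0) := by
        have h1 := hpw.mul hT
        rw [zero_mul] at h1
        refine h1.congr' ?_
        filter_upwards [self_mem_nhdsWithin] with t ht
        have ht0 : t ≠ 0 := ht
        have e : t ^ k = t ^ (k - 1) * t := by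
          rw [← pow_succ]
          congr 1
          omega
        rw [e]
        field_simp
      have hf0 : f 0 = 0 := by
        have hid : Tendsto (fun t : ℝ => t) (𝓝[≠] 0) (𝓝 0) :=
          (continuous_id.tendsto (0 : ℝ)).mono_left nhdsWithin_le_nhds
        have h1 := hid.mul hd
        rw [zero_mul] at h1
        refine tendsto_nhds_unique hL (h1.congr' ?_)
        filter_upwards [self_mem_nhdsWithin] with t ht
        have ht0 : t ≠ 0 := ht
        field_simp
      refine ⟨hd, ?_⟩
      rcases lt_or_gt_of_ne hc with hcn | hcp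
      · left
        obtain ⟨δ, hδ, hδ1, hq⟩ := punct (hT.eventually (gt_mem_nhds hcn))
        have hneg : ∀ t : ℝ, 0 < t → t < δ → f t - b * t < 0 := by
          intro t ht htδ
          rw [hmul t ht.ne']
          exact mul_neg_of_pos_of_neg (pow_pos ht k) (hq t ht.ne' (by rw [abs_of_pos ht]; exact htδ))
        refine ⟨δ / 2, ⟨by linarith, by linarith⟩, ?_, ?_⟩
        · rintro t ⟨h0, h1⟩
          rcases h0.eq_or_lt with h | h
          · rw [← h]
            simp [hf0]
          · exact (hneg t h (by linarith)).le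
        · exact hneg (δ / 2) (by positivity) (by linarith)
      · right
        have hodd : Odd k := by
          rw [← Nat.not_even_iff_odd]
          intro h
          exact hn ⟨h, hcp⟩
        obtain ⟨δ, hδ, hδ1, hq⟩ := punct (hT.eventually (lt_mem_nhds hcp))
        have hneg : ∀ t : ℝ, 0 < t → t < δ → f (-t) + b * t < 0 := by
          intro t ht htδ
          have h0 : -t ≠ 0 := neg_ne_zero.2 ht.ne'
          have h1 := hmul (-t) h0
          have h2 := hq (-t) h0 (by rw [abs_neg, abs_of_pos ht]; exact htδ)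
          have h3 : (-t) ^ k < 0 := hodd.pow_neg (by linarith)
          have h4 := mul_neg_of_neg_of_pos h3 h2
          rw [← h1] at h4
          linarith
        refine ⟨δ / 2, ⟨by linarith, by linarith⟩, ?_, ?_⟩
        · rintro t ⟨h0, h1⟩
          rcases h0.eq_or_lt with h | h
          · rw [← h]
            simp [hf0]
          · exact (hneg t h (by linarith)).le
        · exact hneg (δ / 2) (by positivity) (by linarith)

end Pool.Agent.Helper36.PM6
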